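import Pool.Agent.Q75.BM.Stm

set_option autoImplicit false

namespace Pool.Agent.Q254.BM

open Filter Topology MeasureTheory Set
open scoped ContDiff
open Pool.Agent.Q75.BM

theorem tt : S_TT := by
  intro T hT h
  have hk : ∀ k : ℕ, T (Metric.closedBall (0 : ℂ) (k + 1)) ≤ 1 := by
    intro k
    let f : ContDiffBump (0 : ℂ) := ⟨k + 1, k + 2, by positivity, by linarith⟩
    have hf : Test f := ⟨f.contDiff, f.hasCompactSupport⟩
    have h1 := h f hf (fun z => f.nonneg) (fun z => f.le_one)
    have hint : Integrable f T :=
      f.continuous.integrable_of_hasCompactSupport f.hasCompactSupport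
    have hfin : T (Metric.closedBall (0 : ℂ) (k + 1)) < ⊤ :=
      (isCompact_closedBall (0 : ℂ) _).measure_lt_top
    have h2 : T.real (Metric.closedBall (0 : ℂ) (k + 1)) ≤ ∫ z, f z ∂T := by
      rw [← integral_indicator_one Metric.isClosed_closedBall.measurableSet]
      refine integral_mono ?_ hint ?_
      · refine (integrable_indicator_iff Metric.isClosed_closedBall.measurableSet).2 ?_
        exact integrableOn_const hfin.ne
      · intro z
        by_cases hz : z ∈ Metric.closedBall (0 : ℂ) (k + 1)
        · simp only [Set.indicator_of_mem hz, Pi.one_apply]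
          exact (f.one_of_mem_closedBall hz).ge
        · simp only [Set.indicator_of_notMem hz]
          exact f.nonneg
    have h3 : T.real (Metric.closedBall (0 : ℂ) (k + 1)) ≤ 1 := h2.trans h1
    rw [measureReal_def] at h3
    refine (ENNReal.toReal_le_toReal hfin.ne ENNReal.one_ne_top).1 ?_
    simpa using h3
  have hU : (⋃ k : ℕ, Metric.closedBall (0 : ℂ) ((k : ℝ) + 1)) = univ := by
    rw [eq_univ_iff_forall]
    intro z
    obtain ⟨k, hk⟩ := exists_nat_ge ‖z‖
    refine mem_iUnion.2 ⟨k, ?_⟩
    rw [mem_closedBall_zero_iff]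
    linarith
  have hmono : Monotone (fun k : ℕ => Metric.closedBall (0 : ℂ) ((k : ℝ) + 1)) := by
    intro a b hab
    apply Metric.closedBall_subset_closedBall
    have : (a : ℝ) ≤ b := by exact_mod_cast hab
    linarith
  rw [← hU, hmono.measure_iUnion]
  exact iSup_le hk

end Pool.Agent.Q254.BM

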